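import Mathlib

/-! Positive primitive definability in the structure of positive integers with
addition, `x * 2 ^ y` and `1`. -/

set_option autoImplicit false

namespace Pool.Agent.Work.MP_4f56fb_lc

/-- Atomic constraints over a set of variables: `x = y + z`, `x = y * 2 ^ z`, `x ≤ y`, `x = 1`. -/
abbrev Cstr (V : Type) : Type := (V × V × V) ⊕ (V × V × V) ⊕ (V × V) ⊕ V

/-- When a constraint holds. -/
def holds {V : Type} (v : V → ℕ) (c : Cstr V) : Prop :=
  Sum.elim (fun t : V × V × V => v t.1 = v t.2.1 + v t.2.2)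
    (Sum.elim (fun t : V × V × V => v t.1 = v t.2.1 * 2 ^ v t.2.2)
      (Sum.elim (fun p : V × V => v p.1 ≤ v p.2) (fun i : V => v i = 1))) c

/-- A constraint that is not an inequality. -/
def isEq {V : Type} (c : Cstr V) : Prop :=
  Sum.elim (fun _ : V × V × V => True)
    (Sum.elim (fun _ : V × V × V => True)
      (Sum.elim (fun _ : V × V => False) (fun _ : V => True))) c

def cmap {V W : Type} (g : V → W) : Cstr V → Cstr W :=
  Sum.map (fun t => (g t.1, g t.2.1, g t.2.2))
    (Sum.map (fun t => (g t.1, g t.2.1, g t.2.2))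
      (Sum.map (fun t => (g t.1, g t.2)) (fun i => g i)))

theorem holds_cmap {V W : Type} (g : V → W) (w : W → ℕ) (c : Cstr V) :
    holds w (cmap g c) ↔ holds (fun i => w (g i)) c := by
  rcases c with t | t | t | t <;> exact Iff.rfl

theorem isEq_cmap {V W : Type} (g : V → W) (c : Cstr V) : isEq (cmap g c) ↔ isEq c := by
  rcases c with t | t | t | t <;> exact Iff.rfl

/-- Positive primitive definability (with respect to positive assignments). -/
def PP {α : Type} (R : (α → ℕ) → Prop) : Prop :=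
  ∃ (β : Type) (_ : Fintype β) (L : List (Cstr (α ⊕ β))), (∀ c ∈ L, isEq c) ∧
    ∀ v : α → ℕ, (∀ a, 0 < v a) →
      (R v ↔ ∃ t : β → ℕ, (∀ b, 0 < t b) ∧ ∀ c ∈ L, holds (Sum.elim v t) c)

theorem PP.congr {α : Type} {R S : (α → ℕ) → Prop} (h : PP R)
    (e : ∀ v : α → ℕ, (∀ a, 0 < v a) → (R v ↔ S v)) : PP S := by
  obtain ⟨β, hβ, L, hL, H⟩ := h
  exact ⟨β, hβ, L, hL, fun v hv => (e v hv).symm.trans (H v hv)⟩

theorem PP.and {α : Type} {R S : (α → ℕ) → Prop} (h : PP R) (h' : PP S) :
    PP (fun v => R v ∧ S v) := by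
  obtain ⟨β, hβ, L, hL, H⟩ := h
  obtain ⟨β', hβ', L', hL', H'⟩ := h'
  refine ⟨β ⊕ β', inferInstance,
    L.map (cmap (Sum.map id Sum.inl)) ++ L'.map (cmap (Sum.map id Sum.inr)), ?_, ?_⟩
  · intro c hc
    rw [List.mem_append, List.mem_map, List.mem_map] at hc
    rcases hc with ⟨c', hc', rfl⟩ | ⟨c', hc', rfl⟩
    · rw [isEq_cmap]; exact hL c' hc'
    · rw [isEq_cmap]; exact hL' c' hc'
  · intro v hv
    refine Iff.trans (and_congr (H v hv) (H' v hv)) ?_
    constructor
    · rintro ⟨⟨t, ht, h1⟩, ⟨t', ht', h2⟩⟩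
      refine ⟨Sum.elim t t', ?_, ?_⟩
      · rintro (b | b)
        · exact ht b
        · exact ht' b
      · intro c hc
        rw [List.mem_append, List.mem_map, List.mem_map] at hc
        rcases hc with ⟨c', hc', rfl⟩ | ⟨c', hc', rfl⟩
        · rw [holds_cmap]
          convert! h1 c' hc' using 1
          funext i; rcases i with i | i <;> rfl
        · rw [holds_cmap]
          convert! h2 c' hc' using 1
          funext i; rcases i with i | i <;> rfl
    · rintro ⟨t, ht, h1⟩
      refine ⟨⟨fun b => t (Sum.inl b), fun b => ht _, ?_⟩,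
        ⟨fun b => t (Sum.inr b), fun b => ht _, ?_⟩⟩
      · intro c hc
        have := h1 (cmap (Sum.map id Sum.inl) c) (by
          rw [List.mem_append]; left; exact List.mem_map_of_mem hc)
        rw [holds_cmap] at this
        convert! this using 1
        funext i; rcases i with i | i <;> rfl
      · intro c hc
        have := h1 (cmap (Sum.map id Sum.inr) c) (by
          rw [List.mem_append]; right; exact List.mem_map_of_mem hc)
        rw [holds_cmap] at this
        convert! this using 1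
        funext i; rcases i with i | i <;> rfl

theorem PP.exs {α β : Type} [Fintype β] {R : (α ⊕ β → ℕ) → Prop} (h : PP R) :
    PP (fun v : α → ℕ => ∃ t : β → ℕ, (∀ b, 0 < t b) ∧ R (Sum.elim v t)) := by
  obtain ⟨γ, hγ, L, hL, H⟩ := h
  refine ⟨β ⊕ γ, inferInstance, L.map (cmap (Equiv.sumAssoc α β γ)), ?_, ?_⟩
  · intro c hc
    rw [List.mem_map] at hc
    obtain ⟨c', hc', rfl⟩ := hc
    rw [isEq_cmap]; exact hL c' hc'
  · intro v hv
    constructor
    · rintro ⟨t, ht, hR⟩
      have hv' : ∀ a, 0 < Sum.elim v t a := by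
        rintro (a | a)
        · exact hv a
        · exact ht a
      obtain ⟨s, hs, h1⟩ := (H _ hv').1 hR
      refine ⟨Sum.elim t s, ?_, ?_⟩
      · rintro (b | b)
        · exact ht b
        · exact hs b
      · intro c hc
        rw [List.mem_map] at hc
        obtain ⟨c', hc', rfl⟩ := hc
        rw [holds_cmap]
        convert! h1 c' hc' using 1
        funext i; rcases i with (i | i) | i <;> rfl
    · rintro ⟨t, ht, h1⟩
      refine ⟨fun b => t (Sum.inl b), fun b => ht _, ?_⟩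
      have hv' : ∀ a, 0 < Sum.elim v (fun b => t (Sum.inl b)) a := by
        rintro (a | a)
        · exact hv a
        · exact ht _
      refine (H _ hv').2 ⟨fun b => t (Sum.inr b), fun b => ht _, ?_⟩
      intro c hc
      have := h1 (cmap (Equiv.sumAssoc α β γ) c) (List.mem_map_of_mem hc)
      rw [holds_cmap] at this
      convert! this using 1
      funext i; rcases i with (i | i) | i <;> rfl

theorem PP.reindex {α γ : Type} {R : (α → ℕ) → Prop} (h : PP R) (g : α → γ) :
    PP (fun w : γ → ℕ => R (fun a => w (g a))) := by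
  obtain ⟨β, hβ, L, hL, H⟩ := h
  refine ⟨β, hβ, L.map (cmap (Sum.map g id)), ?_, ?_⟩
  · intro c hc
    rw [List.mem_map] at hc
    obtain ⟨c', hc', rfl⟩ := hc
    rw [isEq_cmap]; exact hL c' hc'
  · intro w hw
    refine Iff.trans (H _ (fun a => hw (g a))) ?_
    refine exists_congr fun t => and_congr_right fun _ => ?_
    constructor
    · intro h1 c hc
      rw [List.mem_map] at hc
      obtain ⟨c', hc', rfl⟩ := hc
      rw [holds_cmap]
      convert! h1 c' hc' using 1
      funext i; rcases i with i | i <;> rfl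
    · intro h1 c hc
      have := h1 (cmap (Sum.map g id) c) (List.mem_map_of_mem hc)
      rw [holds_cmap] at this
      convert! this using 1
      funext i; rcases i with i | i <;> rfl

theorem PP.ex {α : Type} {R : (Option α → ℕ) → Prop} (h : PP R) :
    PP (fun v : α → ℕ => ∃ x, 0 < x ∧ R (fun o => Option.elim o x v)) := by
  have h1 : PP (fun w : α ⊕ Unit → ℕ =>
      R (fun o => w (Option.elim o (Sum.inr ()) Sum.inl))) :=
    h.reindex _
  refine h1.exs.congr ?_
  intro v _
  constructor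
  · rintro ⟨t, ht, hR⟩
    refine ⟨t (), ht _, ?_⟩
    convert! hR using 1
    funext o; rcases o with _ | o <;> rfl
  · rintro ⟨x, hx, hR⟩
    refine ⟨fun _ => x, fun _ => hx, ?_⟩
    convert! hR using 1
    funext o; rcases o with _ | o <;> rfl

theorem PP.ex' {α : Type} {P : ℕ → (α → ℕ) → Prop}
    (h : PP (fun w : Option α → ℕ => P (w none) (fun a => w (some a)))) :
    PP (fun v : α → ℕ => ∃ x, 0 < x ∧ P x v) :=
  h.ex

/-- Functions with positive primitive graph, positive on positive arguments. -/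
def PF {α : Type} (f : (α → ℕ) → ℕ) : Prop :=
  PP (fun w : Option α → ℕ => w none = f (fun a => w (some a))) ∧
    ∀ v : α → ℕ, (∀ a, 0 < v a) → 0 < f v

theorem PF.congr {α : Type} {f g : (α → ℕ) → ℕ} (h : PF f)
    (e : ∀ v : α → ℕ, (∀ a, 0 < v a) → f v = g v) : PF g := by
  refine ⟨h.1.congr ?_, fun v hv => ?_⟩
  · intro w hw
    rw [e _ (fun a => hw (some a))]
  · rw [← e v hv]; exact h.2 v hv

theorem PF.up {α : Type} {f : (α → ℕ) → ℕ} (h : PF f) :
    PF (fun w : Option α → ℕ => f (fun a => w (some a))) := by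
  refine ⟨?_, fun w hw => h.2 _ (fun a => hw _)⟩
  have h1 := h.1.reindex (γ := Option (Option α)) (fun o => Option.elim o none (fun a => some (some a)))
  refine h1.congr ?_
  intro w _
  exact Iff.rfl

theorem pp_add {α : Type} (i j k : α) : PP (fun v : α → ℕ => v i = v j + v k) :=
  ⟨Empty, inferInstance, [Sum.inl (Sum.inl i, Sum.inl j, Sum.inl k)],
    by intro c hc; rw [List.mem_singleton] at hc; subst hc; trivial,
    fun v _ => ⟨fun h => ⟨fun b => b.elim, fun b => b.elim, by
      intro c hc; rw [List.mem_singleton] at hc; subst hc; exact h⟩,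
      fun ⟨_, _, h⟩ => h _ (List.mem_singleton.2 rfl)⟩⟩

theorem pp_sh {α : Type} (i j k : α) : PP (fun v : α → ℕ => v i = v j * 2 ^ v k) :=
  ⟨Empty, inferInstance, [Sum.inr (Sum.inl (Sum.inl i, Sum.inl j, Sum.inl k))],
    by intro c hc; rw [List.mem_singleton] at hc; subst hc; trivial,
    fun v _ => ⟨fun h => ⟨fun b => b.elim, fun b => b.elim, by
      intro c hc; rw [List.mem_singleton] at hc; subst hc; exact h⟩,
      fun ⟨_, _, h⟩ => h _ (List.mem_singleton.2 rfl)⟩⟩

theorem pp_one {α : Type} (i : α) : PP (fun v : α → ℕ => v i = 1) :=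
  ⟨Empty, inferInstance, [Sum.inr (Sum.inr (Sum.inr (Sum.inl i)))],
    by intro c hc; rw [List.mem_singleton] at hc; subst hc; trivial,
    fun v _ => ⟨fun h => ⟨fun b => b.elim, fun b => b.elim, by
      intro c hc; rw [List.mem_singleton] at hc; subst hc; exact h⟩,
      fun ⟨_, _, h⟩ => h _ (List.mem_singleton.2 rfl)⟩⟩

/-- Equality of two variables: `x = y` iff `∃ o s, o = 1 ∧ s = x + o ∧ s = y + o`. -/
theorem pp_eq {α : Type} (i j : α) : PP (fun v : α → ℕ => v i = v j) := by
  have h : PP (fun v : α → ℕ => ∃ o, 0 < o ∧ ∃ s, 0 < s ∧ (o = 1 ∧ s = v i + o ∧ s = v j + o)) := by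
    apply PP.ex'
    apply PP.ex' (P := fun s (w : Option α → ℕ) =>
      (w none = 1 ∧ s = w (some i) + w none ∧ s = w (some j) + w none))
    exact (pp_one _).and ((pp_add _ _ _).and (pp_add _ _ _))
  refine h.congr ?_
  intro v _
  constructor
  · rintro ⟨o, _, s, _, _, h1, h2⟩
    omega
  · intro h
    exact ⟨1, by omega, v i + 1, by omega, rfl, rfl, by rw [h]⟩

theorem PF.proj {α : Type} (i : α) : PF (fun v : α → ℕ => v i) :=
  ⟨pp_eq _ _, fun _ hv => hv i⟩

/-- Composition of a ternary positive primitive function-graph with two functions. -/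
theorem PF.comp2 {α : Type} {f g : (α → ℕ) → ℕ} (hf : PF f) (hg : PF g) (F : ℕ → ℕ → ℕ)
    (hF : ∀ x y, 0 < x → 0 < y → 0 < F x y)
    (h : ∀ (γ : Type) (i j k : γ), PP (fun v : γ → ℕ => v i = F (v j) (v k))) :
    PF (fun v => F (f v) (g v)) := by
  refine ⟨?_, fun v hv => hF _ _ (hf.2 v hv) (hg.2 v hv)⟩
  have h1 : PP (fun w : Option α → ℕ => ∃ x, 0 < x ∧ ∃ y, 0 < y ∧
      ((x = f (fun a => w (some a)) ∧ y = g (fun a => w (some a))) ∧ w none = F x y)) := by
    apply PP.ex'
    apply PP.ex' (P := fun y (w : Option (Option α) → ℕ) =>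
      ((w none = f (fun a => w (some (some a))) ∧ y = g (fun a => w (some (some a)))) ∧
        w (some none) = F (w none) y))
    refine (PP.and ?_ ?_).and (h _ _ _ _)
    · exact (hf.1.reindex (γ := Option (Option (Option α)))
        (fun o => Option.elim o (some none) (fun a => some (some (some a)))))
    · exact (hg.1.reindex (γ := Option (Option (Option α)))
        (fun o => Option.elim o none (fun a => some (some (some a)))))
  refine h1.congr ?_
  intro w hw
  constructor
  · rintro ⟨x, _, y, _, ⟨rfl, rfl⟩, h⟩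
    exact h
  · intro h
    exact ⟨_, hf.2 _ (fun a => hw _), _, hg.2 _ (fun a => hw _), ⟨rfl, rfl⟩, h⟩

theorem PF.add {α : Type} {f g : (α → ℕ) → ℕ} (hf : PF f) (hg : PF g) :
    PF (fun v => f v + g v) :=
  PF.comp2 hf hg (fun x y => x + y) (fun _ _ _ _ => by omega) (fun _ _ _ _ => pp_add _ _ _)

theorem PF.sh {α : Type} {f g : (α → ℕ) → ℕ} (hf : PF f) (hg : PF g) :
    PF (fun v => f v * 2 ^ g v) :=
  PF.comp2 hf hg (fun x y => x * 2 ^ y) (fun _ _ _ _ => by positivity) (fun _ _ _ _ => pp_sh _ _ _)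

theorem PF.one {α : Type} : PF (fun _ : α → ℕ => 1) :=
  ⟨pp_one _, fun _ _ => one_pos⟩

theorem PF.const {α : Type} (n : ℕ) : PF (fun _ : α → ℕ => n + 1) := by
  induction n with
  | zero => exact PF.one
  | succ n ih => exact ih.add PF.one

theorem PF.pow2 {α : Type} {g : (α → ℕ) → ℕ} (hg : PF g) : PF (fun v => 2 ^ g v) :=
  (PF.one.sh hg).congr (fun v _ => by simp)

theorem PF.eq {α : Type} {f g : (α → ℕ) → ℕ} (hf : PF f) (hg : PF g) :
    PP (fun v => f v = g v) := by
  have h : PP (fun v : α → ℕ => ∃ x, 0 < x ∧ (x = f v ∧ x = g v)) := by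
    apply PP.ex'
    exact hf.1.and hg.1
  refine h.congr ?_
  intro v hv
  constructor
  · rintro ⟨x, _, h1, h2⟩; omega
  · intro h; exact ⟨f v, hf.2 v hv, rfl, h⟩

theorem PF.lt {α : Type} {f g : (α → ℕ) → ℕ} (hf : PF f) (hg : PF g) :
    PP (fun v => f v < g v) := by
  have h : PP (fun v : α → ℕ => ∃ x, 0 < x ∧ (f v + x = g v)) := by
    apply PP.ex'
    exact PF.eq (hf.up.add (PF.proj none)) hg.up
  refine h.congr ?_
  intro v _
  constructor
  · rintro ⟨x, _, h1⟩; omega
  · intro h; exact ⟨g v - f v, by omega, by omega⟩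

/-- The restricted multiplication relation. -/
def RM (a k m : ℕ) : Prop := k + 1 < 2 ^ a ∧ m + 1 < 2 ^ a ∧ m = a * k

theorem geom_cong (a k S : ℕ) (h : S * 2 ^ a + 1 = S + 2 ^ (a * k)) (ha : 0 < a) :
    ∃ j, S = k + j * (2 ^ a - 1) := by
  induction k generalizing S with
  | zero =>
    have h2 : 2 ≤ 2 ^ a := by
      calc 2 = 2 ^ 1 := rfl
        _ ≤ 2 ^ a := Nat.pow_le_pow_right (by norm_num) ha
    simp at h
    refine ⟨0, ?_⟩
    nlinarith
  | succ k ih =>
    -- S = 2 ^ (a * k) + S'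
    have h2 : 2 ≤ 2 ^ a := by
      calc 2 = 2 ^ 1 := rfl
        _ ≤ 2 ^ a := Nat.pow_le_pow_right (by norm_num) ha
    obtain ⟨d, hd⟩ : ∃ d, 2 ^ a = d + 1 := ⟨2 ^ a - 1, by omega⟩
    have hd0 : 0 < d := by omega
    have e : 2 ^ (a * (k + 1)) = 2 ^ (a * k) * (d + 1) := by
      rw [← hd, ← pow_add]; ring_nf
    rw [hd, e] at h
    have h3 : S * d + 1 = 2 ^ (a * k) * d + 2 ^ (a * k) := by nlinarith
    have h4 : 2 ^ (a * k) ≤ S := by
      by_contra hlt
      have hlt : S + 1 ≤ 2 ^ (a * k) := by omega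
      have := Nat.mul_le_mul_right d hlt
      have h5 : 1 ≤ 2 ^ (a * k) := Nat.one_le_two_pow
      nlinarith
    obtain ⟨S', rfl⟩ := Nat.exists_eq_add_of_le h4
    have h6 : S' * 2 ^ a + 1 = S' + 2 ^ (a * k) := by
      rw [hd]; nlinarith
    obtain ⟨j, hj⟩ := ih S' h6
    -- 2 ^ (a * k) ≡ 1
    have h7 : ∀ k, ∃ i, 2 ^ (a * k) = 1 + i * d := by
      intro k
      induction k with
      | zero => exact ⟨0, by simp⟩
      | succ k ih =>
        obtain ⟨i, hi⟩ := ih
        refine ⟨i * (d + 1) + 1, ?_⟩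
        have : 2 ^ (a * (k + 1)) = 2 ^ (a * k) * (d + 1) := by
          rw [← hd, ← pow_add]; ring_nf
        rw [this, hi]; ring
    obtain ⟨i, hi⟩ := h7 k
    refine ⟨i + j, ?_⟩
    have : 2 ^ a - 1 = d := by omega
    rw [this] at hj ⊢
    rw [hi, hj]; ring

theorem rm_iff {a k m : ℕ} (ha : 0 < a) (hk : 0 < k) (hm : 0 < m) :
    RM a k m ↔ ((∃ S, 0 < S ∧ ∃ T, 0 < T ∧ (S * 2 ^ a + 1 = S + 2 ^ m ∧
      S + T + 2 ^ a = k + T * 2 ^ a + 1)) ∧ k + 1 < 2 ^ a ∧ m + 1 < 2 ^ a) := by
  unfold RM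
  have h2 : 2 ≤ 2 ^ a := by
    calc 2 = 2 ^ 1 := rfl
      _ ≤ 2 ^ a := Nat.pow_le_pow_right (by norm_num) ha
  obtain ⟨d, hd⟩ : ∃ d, 2 ^ a = d + 1 := ⟨2 ^ a - 1, by omega⟩
  constructor
  · rintro ⟨h1, h3, rfl⟩
    refine ⟨?_, h1, h3⟩
    -- existence of the geometric sum
    have hex : ∀ k, ∃ S, S * 2 ^ a + 1 = S + 2 ^ (a * k) := by
      intro k
      induction k with
      | zero => exact ⟨0, by simp⟩
      | succ k ih =>
        obtain ⟨S, hS⟩ := ih
        refine ⟨S + 2 ^ (a * k), ?_⟩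
        have : 2 ^ (a * (k + 1)) = 2 ^ (a * k) * 2 ^ a := by
          rw [← pow_add]; ring_nf
        rw [this, add_mul]; omega
    obtain ⟨S, hS⟩ := hex k
    obtain ⟨j, hj⟩ := geom_cong a k S hS ha
    have hdd : 2 ^ a - 1 = d := by omega
    rw [hdd] at hj
    refine ⟨S, by omega, j + 1, by omega, hS, ?_⟩
    rw [hd, hj]; ring
  · rintro ⟨⟨S, hS0, T, hT0, hS, hT⟩, h1, h3⟩
    refine ⟨h1, h3, ?_⟩
    -- (2 ^ a - 1) ∣ (2 ^ m - 1)
    have hdvd : (2 ^ a - 1) ∣ (2 ^ m - 1) := by
      refine ⟨S, ?_⟩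
      have hm1 : 1 ≤ 2 ^ m := Nat.one_le_two_pow
      have hdd : 2 ^ a - 1 = d := by omega
      rw [hdd]
      rw [hd] at hS
      have : S * (d + 1) = S * d + S := by ring
      rw [mul_comm d S]
      omega
    have ham : a ∣ m := by
      have hg := Nat.pow_sub_one_gcd_pow_sub_one 2 a m
      have h4 : Nat.gcd (2 ^ a - 1) (2 ^ m - 1) = 2 ^ a - 1 := Nat.gcd_eq_left hdvd
      rw [h4] at hg
      have h5 : 2 ^ a = 2 ^ (Nat.gcd a m) := by
        have : 1 ≤ 2 ^ (Nat.gcd a m) := Nat.one_le_two_pow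
        omega
      have h6 : a = Nat.gcd a m := Nat.pow_right_injective (le_refl 2) h5
      rw [h6]; exact Nat.gcd_dvd_right _ _
    obtain ⟨k', rfl⟩ := ham
    obtain ⟨j, hj⟩ := geom_cong a k' S hS ha
    have hdd : 2 ^ a - 1 = d := by omega
    rw [hdd] at hj
    have hk'd : k' < d := by
      have : k' ≤ a * k' := Nat.le_mul_of_pos_left _ ha
      omega
    have hkd : k < d := by omega
    -- S ≡ k mod d
    have hT' : S + d = k + T * d := by
      rw [hd] at hT
      have : T * (d + 1) = T * d + T := by ring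
      omega
    have e1 : (S + d) % d = k % d := by rw [hT', Nat.add_mul_mod_self_right]
    have e2 : (S + d) % d = k' % d := by
      rw [Nat.add_mod_right, hj, Nat.add_mul_mod_self_right]
    rw [Nat.mod_eq_of_lt hkd] at e1
    rw [Nat.mod_eq_of_lt hk'd] at e2
    have : k = k' := by omega
    rw [this]

theorem pp_rm {α : Type} {f g h : (α → ℕ) → ℕ} (hf : PF f) (hg : PF g) (hh : PF h) :
    PP (fun v => RM (f v) (g v) (h v)) := by
  have h1 : PP (fun v : α → ℕ => (∃ S, 0 < S ∧ ∃ T, 0 < T ∧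
      (S * 2 ^ (f v) + 1 = S + 2 ^ (h v) ∧
      S + T + 2 ^ (f v) = g v + T * 2 ^ (f v) + 1)) ∧ g v + 1 < 2 ^ (f v) ∧
        h v + 1 < 2 ^ (f v)) := by
    refine PP.and ?_ (PP.and ?_ ?_)
    · apply PP.ex'
      apply PP.ex'
      refine PP.and ?_ ?_
      · exact PF.eq (((PF.proj (some none)).sh hf.up.up).add PF.one)
          ((PF.proj (some none)).add hh.up.up.pow2)
      · exact PF.eq (((PF.proj (some none)).add (PF.proj none)).add hf.up.up.pow2)
          ((hg.up.up.add ((PF.proj none).sh hf.up.up)).add PF.one)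
    · exact PF.lt (hg.add PF.one) hf.pow2
    · exact PF.lt (hh.add PF.one) hf.pow2
  refine h1.congr ?_
  intro v hv
  exact (rm_iff (hf.2 v hv) (hg.2 v hv) (hh.2 v hv)).symm

theorem exists_big (x : ℕ) : ∃ b, 0 < b ∧ x * (b + x) + x + 1 < 2 ^ b := by
  -- take b = 2 * x + 4
  have key : ∀ n : ℕ, n * n + 2 * n + 2 < 2 ^ (n + 4) := by
    intro n
    induction n with
    | zero => norm_num
    | succ n ih =>
      have : 2 ^ (n + 1 + 4) = 2 * 2 ^ (n + 4) := by ring
      rw [this]
      nlinarith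
  refine ⟨2 * x + 4, by omega, ?_⟩
  have h := key (2 * x)
  have h2 : 2 ^ (2 * x + 4) = 2 ^ (2 * x + 4) := rfl
  have h3 : 16 ≤ 2 ^ (2 * x + 4) := by
    calc 16 = 2 ^ 4 := by norm_num
      _ ≤ 2 ^ (2 * x + 4) := Nat.pow_le_pow_right (by norm_num) (by omega)
  nlinarith

/-- Multiplication is positive primitive definable. -/
theorem pp_mul {α : Type} (i j k : α) : PP (fun v : α → ℕ => v i = v j * v k) := by
  have h : PP (fun v : α → ℕ => ∃ b, 0 < b ∧ ∃ m1, 0 < m1 ∧ ∃ m2, 0 < m2 ∧
      (RM b (v k) m1 ∧ RM (v j + b) (v k) m2 ∧ m2 = v i + m1)) := by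
    apply PP.ex'
    apply PP.ex'
    apply PP.ex'
    refine PP.and ?_ (PP.and ?_ ?_)
    · exact pp_rm (PF.proj (some (some none))) (PF.proj (some (some (some k)))) (PF.proj (some none))
    · exact pp_rm ((PF.proj (some (some (some j)))).add (PF.proj (some (some none))))
        (PF.proj (some (some (some k)))) (PF.proj none)
    · exact PF.eq (PF.proj none) ((PF.proj (some (some (some i)))).add (PF.proj (some none)))
  refine h.congr ?_
  intro v hv
  constructor
  · rintro ⟨b, hb, m1, hm1, m2, hm2, ⟨_, _, r1⟩, ⟨_, _, r2⟩, r3⟩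
    subst r1
    have : (v j + b) * v k = v j * v k + b * v k := by ring
    omega
  · intro h1
    obtain ⟨b, hb0, hb⟩ := exists_big (v j + v k)
    have hj := hv j
    have hk := hv k
    have hle : 2 ^ b ≤ 2 ^ (v j + b) := Nat.pow_le_pow_right (by norm_num) (by omega)
    have q1 : v k + 1 < 2 ^ b := by nlinarith
    have q2 : (v j + b) * v k + 1 < 2 ^ b := by nlinarith
    have q3 : b * v k + 1 < 2 ^ b := by nlinarith
    refine ⟨b, hb0, b * v k, by positivity, (v j + b) * v k, by positivity,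
      ⟨q1, q3, rfl⟩, ⟨by omega, by omega, rfl⟩, ?_⟩
    rw [h1]; ring

theorem PF.mul {α : Type} {f g : (α → ℕ) → ℕ} (hf : PF f) (hg : PF g) :
    PF (fun v => f v * g v) :=
  PF.comp2 hf hg (fun x y => x * y) (fun _ _ _ _ => by positivity) (fun _ _ _ _ => pp_mul _ _ _)

end Pool.Agent.Work.MP_4f56fb_lc
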