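import Mathlib

/-! Number theory behind the elimination of bounded universal quantifiers. -/

set_option autoImplicit false

namespace Pool.Agent.Work.MP_4f56fb_lc

open Finset Nat

/-- The moduli `(c - k) / (k + 1)`. -/
def md (c k : ℕ) : ℕ := (c - k) / (k + 1)

theorem succ_mul_dvd {Q c k p : ℕ} (hW : (Q !) ^ 2 ∣ c + 1) (hk : k + 1 ≤ Q) (hp : p ≤ Q)
    (hp0 : 0 < p) : (k + 1) * p ∣ c + 1 := by
  refine dvd_trans ?_ hW
  rw [pow_two]
  exact Nat.mul_dvd_mul (Nat.dvd_factorial (by omega) hk) (Nat.dvd_factorial hp0 hp)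

theorem md_spec {Q c k : ℕ} (hW : (Q !) ^ 2 ∣ c + 1) (hk : k + 1 ≤ Q) :
    (md c k + 1) * (k + 1) = c + 1 := by
  have h1 : (k + 1) * 1 ∣ c + 1 := succ_mul_dvd hW hk (by omega) (by omega)
  rw [mul_one] at h1
  obtain ⟨t, ht⟩ := h1
  have ht0 : 0 < t := by
    rcases Nat.eq_zero_or_pos t with h | h
    · subst h; simp at ht
    · exact h
  have h2 : c - k = (t - 1) * (k + 1) := by
    have : (t - 1) * (k + 1) = t * (k + 1) - (k + 1) := by rw [Nat.sub_mul, one_mul]
    rw [this, mul_comm t]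
    omega
  have h3 : md c k = t - 1 := by
    unfold md
    rw [h2]
    exact Nat.mul_div_cancel _ (by omega)
  rw [h3, ht, Nat.sub_add_cancel ht0, mul_comm]

theorem md_mul {Q c k : ℕ} (hW : (Q !) ^ 2 ∣ c + 1) (hk : k + 1 ≤ Q) :
    md c k * (k + 1) = c - k := by
  have h := md_spec hW hk
  have : (md c k + 1) * (k + 1) = md c k * (k + 1) + (k + 1) := by ring
  omega

theorem md_prime {Q c k p : ℕ} (hW : (Q !) ^ 2 ∣ c + 1) (hk : k + 1 ≤ Q) (hp : p.Prime)
    (hd : p ∣ md c k) : Q < p := by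
  by_contra hlt
  have hlt : p ≤ Q := by omega
  have h1 := succ_mul_dvd hW hk hlt hp.pos
  have h2 := md_spec hW hk
  rw [← h2, mul_comm (md c k + 1)] at h1
  have h3 : p ∣ md c k + 1 := Nat.dvd_of_mul_dvd_mul_left (by omega) h1
  have h4 : p ∣ 1 := (Nat.dvd_add_right hd).1 h3
  exact hp.one_lt.ne' (Nat.dvd_one.1 h4)

theorem md_dvd_sub {Q c k : ℕ} (hW : (Q !) ^ 2 ∣ c + 1) (hk : k + 1 ≤ Q) :
    md c k ∣ c - k := ⟨k + 1, (md_mul hW hk).symm⟩

theorem md_coprime {Q c k l : ℕ} (hW : (Q !) ^ 2 ∣ c + 1) (hk : k + 1 ≤ Q) (hl : l + 1 ≤ Q)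
    (hc : Q ≤ c) (hkl : k ≠ l) : Nat.Coprime (md c k) (md c l) := by
  rw [Nat.coprime_iff_gcd_eq_one]
  by_contra hne
  obtain ⟨p, hp, hpd⟩ := Nat.exists_prime_and_dvd hne
  have h1 : p ∣ md c k := dvd_trans hpd (Nat.gcd_dvd_left _ _)
  have h2 : p ∣ md c l := dvd_trans hpd (Nat.gcd_dvd_right _ _)
  have hQ := md_prime hW hk hp h1
  have h3 : p ∣ c - k := dvd_trans h1 (md_dvd_sub hW hk)
  have h4 : p ∣ c - l := dvd_trans h2 (md_dvd_sub hW hl)
  rcases Nat.lt_or_gt_of_ne hkl with h | h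
  · have h5 : p ∣ (c - k) - (c - l) := Nat.dvd_sub h3 h4
    have h6 : (c - k) - (c - l) = l - k := by omega
    rw [h6] at h5
    have := Nat.le_of_dvd (by omega) h5
    omega
  · have h5 : p ∣ (c - l) - (c - k) := Nat.dvd_sub h4 h3
    have h6 : (c - l) - (c - k) = k - l := by omega
    rw [h6] at h5
    have := Nat.le_of_dvd (by omega) h5
    omega

theorem md_prod {Q c y : ℕ} (hW : (Q !) ^ 2 ∣ c + 1) (hy : y ≤ Q) :
    ∏ k ∈ range y, md c k = Nat.choose c y := by
  have h1 : (∏ k ∈ range y, md c k) * y ! = Nat.choose c y * y ! := by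
    have h2 : Nat.choose c y * y ! = ∏ k ∈ range y, (c - k) := by
      rw [← Nat.descFactorial_eq_prod_range, Nat.descFactorial_eq_factorial_mul_choose, mul_comm]
    rw [h2, ← Finset.prod_range_add_one_eq_factorial, ← Finset.prod_mul_distrib]
    apply Finset.prod_congr rfl
    intro k hk
    rw [Finset.mem_range] at hk
    exact md_mul hW (by omega)
  exact Nat.eq_of_mul_eq_mul_right (Nat.factorial_pos y) h1

theorem md_ge_two {Q c y k : ℕ} (hW : (Q !) ^ 2 ∣ c + 1) (hy : y ≤ Q) (hc : 3 * y ≤ c)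
    (hk : k < y) : 2 ≤ md c k := by
  have h := md_spec (k := k) hW (by omega)
  by_contra hlt
  have hlt : md c k + 1 ≤ 2 := by omega
  have := Nat.mul_le_mul_right (k + 1) hlt
  omega

/-- If a prime divides a falling factorial of length `u + 1` then the residue of the base is
at most `u`. -/
theorem mod_le_of_dvd_descFactorial {p a u : ℕ} (hp : p.Prime) (hu : u < p)
    (h : p ∣ a.descFactorial (u + 1)) : a % p ≤ u := by
  rw [Nat.descFactorial_eq_prod_range] at h
  obtain ⟨j, hj, hd⟩ := (Prime.dvd_finsetProd_iff hp.prime _).1 h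
  rw [Finset.mem_range] at hj
  by_cases hja : j ≤ a
  · have h1 : a % p = j := by
      obtain ⟨t, ht⟩ := hd
      have : a = j + p * t := by omega
      rw [this, Nat.add_mul_mod_self_left, Nat.mod_eq_of_lt (by omega)]
    omega
  · have : a % p ≤ a := Nat.mod_le _ _
    omega

theorem dvd_descFactorial_of_modEq {m a t u : ℕ} (h : a ≡ t [MOD m]) (ht : t ≤ u) :
    m ∣ a.descFactorial (u + 1) := by
  by_cases ha : a ≤ u
  · have : a.descFactorial (u + 1) = 0 := by
      rw [Nat.descFactorial_eq_zero_iff_lt]; omega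
    rw [this]; exact dvd_zero _
  · rw [Nat.descFactorial_eq_prod_range]
    have h1 : m ∣ a - t := (Nat.modEq_iff_dvd' (by omega)).1 h.symm
    exact dvd_trans h1 (Finset.dvd_prod_of_mem (fun i => a - i) (Finset.mem_range.2 (by omega)))

end Pool.Agent.Work.MP_4f56fb_lc
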