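import Mathlib

/-! Binomial coefficients and factorials are Diophantine. -/

set_option autoImplicit false

namespace Pool.Agent.Work.MP_4f56fb_lc

open Finset Nat

theorem choose_eq_digit (n k : ℕ) :
    Nat.choose n k = ((2 ^ (n + 1) + 1) ^ n / (2 ^ (n + 1)) ^ k) % 2 ^ (n + 1) := by
  set u := 2 ^ (n + 1) with hu
  have hu1 : 1 < u := by rw [hu]; exact Nat.one_lt_two_pow (by omega)
  have hlt : ∀ i, Nat.choose n i < u := by
    intro i
    rcases Nat.eq_zero_or_pos n with h | h
    · subst h
      rcases i with _ | i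
      · simp [hu]
      · simp [hu]
    · calc Nat.choose n i < 2 ^ n := Nat.choose_lt_two_pow n i h
        _ < u := by rw [hu]; exact Nat.pow_lt_pow_right (by norm_num) (by omega)
  have hsum : (u + 1) ^ n = Nat.ofDigits u ((List.range (n + 1)).map (fun i => Nat.choose n i)) := by
    rw [Nat.ofDigits_eq_sum_mapIdx, add_pow]
    rw [Finset.sum_range]
    rw [← List.sum_ofFn]
    congr 1
    apply List.ext_getElem
    · simp
    · intro i h1 h2
      simp only [List.getElem_ofFn, List.getElem_mapIdx, List.getElem_map, List.getElem_range,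
        one_pow, mul_one, Nat.cast_id]
      ring
  rw [hsum]
  have hd := Nat.getD_digits (Nat.ofDigits u ((List.range (n + 1)).map (fun i => Nat.choose n i))) k
    (b := u) (by omega)
  rw [← hd]
  rw [Nat.digits_ofDigits u hu1]
  · by_cases hk : k < n + 1
    · rw [List.getD_eq_getElem _ _ (by simpa using hk)]
      simp
    · rw [List.getD_eq_default _ _ (by simpa using hk)]
      exact Nat.choose_eq_zero_of_lt (by omega)
  · intro l hl
    simp only [List.mem_map] at hl
    obtain ⟨a, _, rfl⟩ := hl
    exact hlt a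
  · intro h
    simp

theorem choose_dioph {α : Type} {f g : (α → ℕ) → ℕ} (df : Dioph.DiophFn f)
    (dg : Dioph.DiophFn g) : Dioph.DiophFn fun v => Nat.choose (f v) (g v) := by
  have h : (fun v => Nat.choose (f v) (g v)) =
      fun v => ((2 ^ (f v + 1) + 1) ^ (f v) / (2 ^ (f v + 1)) ^ (g v)) % 2 ^ (f v + 1) := by
    funext v
    exact choose_eq_digit _ _
  rw [h]
  have d1 : Dioph.DiophFn fun v : α → ℕ => f v + 1 := Dioph.add_dioph df (Dioph.const_dioph 1)
  have d2 : Dioph.DiophFn fun v : α → ℕ => 2 ^ (f v + 1) :=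
    Dioph.pow_dioph (Dioph.const_dioph 2) d1
  have d3 : Dioph.DiophFn fun v : α → ℕ => 2 ^ (f v + 1) + 1 :=
    Dioph.add_dioph d2 (Dioph.const_dioph 1)
  exact Dioph.mod_dioph (Dioph.div_dioph (Dioph.pow_dioph d3 df) (Dioph.pow_dioph d2 dg)) d2

theorem factorial_eq_div (n r : ℕ) (hr : n * n * (n ! + 1) + n < r) :
    n ! = r ^ n / Nat.choose r n := by
  have hnr : n ≤ r := by nlinarith [Nat.factorial_pos n]
  have hpos : 0 < Nat.choose r n := Nat.choose_pos hnr
  symm
  rw [Nat.div_eq_iff hpos]
  have e : r.descFactorial n = n ! * r.choose n := Nat.descFactorial_eq_factorial_mul_choose r n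
  constructor
  · rw [← e]
    exact Nat.descFactorial_le_pow r n
  · -- r ^ n < (n! + 1) * choose r n
    have key : r ^ n * n ! < (n ! + 1) * r.descFactorial n := by
      have h1 : (r + 1 - n) ^ n ≤ r.descFactorial n := Nat.pow_sub_le_descFactorial r n
      -- r^n ≤ (r-n)^n + n * n * r^(n-1)
      rcases Nat.eq_zero_or_pos n with h0 | h0
      · subst h0
        simp
      obtain ⟨m, rfl⟩ : ∃ m, n = m + 1 := ⟨n - 1, by omega⟩
      have h2 : r ^ (m + 1) ≤ (r + 1 - (m + 1)) ^ (m + 1) + (m + 1) * (m + 1) * r ^ m := by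
        obtain ⟨s, hs⟩ : ∃ s, r = s + (m + 1) := ⟨r - (m + 1), by omega⟩
        have hs2 : s ^ (m + 1) ≤ (r + 1 - (m + 1)) ^ (m + 1) :=
          Nat.pow_le_pow_left (by omega) _
        have h3 : ∀ j : ℕ, (s + (m + 1)) ^ j ≤ s ^ j + j * (m + 1) * r ^ (j - 1) := by
          intro j
          induction j with
          | zero => simp
          | succ j ih =>
            rcases Nat.eq_zero_or_pos j with hj | hj
            · subst hj; simp
            calc (s + (m + 1)) ^ (j + 1) = (s + (m + 1)) ^ j * s + (s + (m + 1)) ^ j * (m + 1) := by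
                  rw [pow_succ]; ring
              _ ≤ (s ^ j + j * (m + 1) * r ^ (j - 1)) * s + r ^ j * (m + 1) := by
                  apply Nat.add_le_add
                  · exact Nat.mul_le_mul_right _ ih
                  · rw [← hs]
              _ = s ^ (j + 1) + (j * (m + 1)) * (r ^ (j - 1) * s) + r ^ j * (m + 1) := by ring
              _ ≤ s ^ (j + 1) + (j * (m + 1)) * r ^ j + r ^ j * (m + 1) := by
                  have : r ^ (j - 1) * s ≤ r ^ j := by
                    calc r ^ (j - 1) * s ≤ r ^ (j - 1) * r := Nat.mul_le_mul_left _ (by omega)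
                      _ = r ^ j := by rw [← pow_succ]; congr 1; omega
                  have := Nat.mul_le_mul_left (j * (m + 1)) this
                  omega
              _ = s ^ (j + 1) + (j + 1) * (m + 1) * r ^ (j + 1 - 1) := by
                  rw [Nat.add_sub_cancel]; ring
        have h4 := h3 (m + 1)
        rw [Nat.add_sub_cancel, ← hs] at h4
        omega
      have hr0 : 0 < r ^ m := by
        apply Nat.pow_pos; omega
      set F := (m + 1)! with hF
      set A := (r + 1 - (m + 1)) ^ (m + 1) with hA
      have h5 : (m + 1) * (m + 1) * r ^ m * (F + 1) < r ^ (m + 1) := by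
        rw [pow_succ]
        have : (m + 1) * (m + 1) * (F + 1) < r := by omega
        calc (m + 1) * (m + 1) * r ^ m * (F + 1) = r ^ m * ((m + 1) * (m + 1) * (F + 1)) := by ring
          _ < r ^ m * r := Nat.mul_lt_mul_of_pos_left this hr0
      have h6 : r ^ (m + 1) * F < (F + 1) * A := by
        have h7 : (F + 1) * r ^ (m + 1) ≤ (F + 1) * A + (F + 1) * ((m + 1) * (m + 1) * r ^ m) := by
          rw [← Nat.mul_add]; exact Nat.mul_le_mul_left _ h2
        nlinarith
      calc r ^ (m + 1) * F < (F + 1) * A := h6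
        _ ≤ (F + 1) * r.descFactorial (m + 1) := Nat.mul_le_mul_left _ h1
    rw [e] at key
    have h8 : r ^ n < (n ! + 1) * r.choose n := by
      have : n ! * (r ^ n) < n ! * ((n ! + 1) * r.choose n) := by
        calc n ! * (r ^ n) = r ^ n * n ! := by ring
          _ < (n ! + 1) * (n ! * r.choose n) := key
          _ = n ! * ((n ! + 1) * r.choose n) := by ring
      exact Nat.lt_of_mul_lt_mul_left this
    have h9 : (n ! + 1) * r.choose n = n ! * r.choose n + r.choose n := by ring
    omega

theorem factorial_dioph {α : Type} {f : (α → ℕ) → ℕ} (df : Dioph.DiophFn f) :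
    Dioph.DiophFn fun v => (f v)! := by
  -- take r = n * n * (n ^ n + 1) + n + 1
  have h : (fun v => (f v)!) =
      fun v => (f v * f v * ((f v) ^ (f v) + 1) + f v + 1) ^ (f v) /
        Nat.choose (f v * f v * ((f v) ^ (f v) + 1) + f v + 1) (f v) := by
    funext v
    apply factorial_eq_div
    have : (f v)! ≤ (f v) ^ (f v) := Nat.factorial_le_pow (f v)
    have h2 := Nat.mul_le_mul_left (f v * f v) (Nat.add_le_add_right this 1)
    omega
  rw [h]
  have d1 : Dioph.DiophFn fun v : α → ℕ => f v * f v * ((f v) ^ (f v) + 1) + f v + 1 :=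
    Dioph.add_dioph (Dioph.add_dioph (Dioph.mul_dioph (Dioph.mul_dioph df df)
      (Dioph.add_dioph (Dioph.pow_dioph df df) (Dioph.const_dioph 1))) df) (Dioph.const_dioph 1)
  exact Dioph.div_dioph (Dioph.pow_dioph d1 df) (choose_dioph d1 df)

theorem descFactorial_dioph {α : Type} {f g : (α → ℕ) → ℕ} (df : Dioph.DiophFn f)
    (dg : Dioph.DiophFn g) : Dioph.DiophFn fun v => Nat.descFactorial (f v) (g v) := by
  have h : (fun v => Nat.descFactorial (f v) (g v)) = fun v => (g v)! * Nat.choose (f v) (g v) := by
    funext v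
    exact Nat.descFactorial_eq_factorial_mul_choose _ _
  rw [h]
  exact Dioph.mul_dioph (factorial_dioph dg) (choose_dioph df dg)

end Pool.Agent.Work.MP_4f56fb_lc
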