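import Mathlib
import Pool.Agent.Work.MP_4f56fb_lc.Choose
import Pool.Agent.Work.MP_4f56fb_lc.BallNT

/-! Diophantine sets are closed under bounded universal quantification. -/

set_option autoImplicit false

namespace Pool.Agent.Work.MP_4f56fb_lc

open Finset Nat

/-- A function `ℕ → ℕ` that can be composed with Diophantine functions. -/
def DFun (B : ℕ → ℕ) : Prop :=
  ∀ (δ : Type) (g : (δ → ℕ) → ℕ), Dioph.DiophFn g → Dioph.DiophFn (fun v => B (g v))

theorem poly_support {γ : Type} (p : Poly γ) :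
    ∃ (s : Finset γ) (B : ℕ → ℕ), DFun B ∧
      (∀ (x : γ → ℕ) (u : ℕ), (∀ i ∈ s, x i ≤ u) → |p x| ≤ (B u : ℤ)) ∧
      (∀ (m : ℤ) (x y : γ → ℕ), (∀ i ∈ s, (x i : ℤ) ≡ (y i : ℤ) [ZMOD m]) →
        p x ≡ p y [ZMOD m]) := by
  classical
  refine Poly.induction (C := fun p => ∃ (s : Finset γ) (B : ℕ → ℕ), DFun B ∧
      (∀ (x : γ → ℕ) (u : ℕ), (∀ i ∈ s, x i ≤ u) → |p x| ≤ (B u : ℤ)) ∧
      (∀ (m : ℤ) (x y : γ → ℕ), (∀ i ∈ s, (x i : ℤ) ≡ (y i : ℤ) [ZMOD m]) →
        p x ≡ p y [ZMOD m])) ?_ ?_ ?_ ?_ p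
  · intro i
    refine ⟨{i}, id, fun δ g hg => hg, ?_, ?_⟩
    · intro x u h
      have := h i (by simp)
      simp only [Poly.proj_apply, id_eq, Nat.abs_cast, Nat.cast_le]
      exact this
    · intro m x y h
      simpa using h i (by simp)
  · intro n
    refine ⟨∅, fun _ => n.natAbs, fun δ g _ => Dioph.const_dioph _, ?_, ?_⟩
    · intro x u _
      simp
    · intro m x y _
      simp only [Poly.const_apply]
      exact Int.ModEq.refl _
  · rintro f g ⟨s, B, hB, h1, h2⟩ ⟨s', B', hB', h1', h2'⟩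
    refine ⟨s ∪ s', fun u => B u + B' u, fun δ q hq => Dioph.add_dioph (hB δ q hq) (hB' δ q hq),
      ?_, ?_⟩
    · intro x u h
      have a1 := h1 x u (fun i hi => h i (Finset.mem_union_left _ hi))
      have a2 := h1' x u (fun i hi => h i (Finset.mem_union_right _ hi))
      simp only [Poly.sub_apply, Nat.cast_add]
      calc |f x - g x| ≤ |f x| + |g x| := abs_sub _ _
        _ ≤ _ := add_le_add a1 a2
    · intro m x y h
      simp only [Poly.sub_apply]
      exact (h2 m x y (fun i hi => h i (Finset.mem_union_left _ hi))).sub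
        (h2' m x y (fun i hi => h i (Finset.mem_union_right _ hi)))
  · rintro f g ⟨s, B, hB, h1, h2⟩ ⟨s', B', hB', h1', h2'⟩
    refine ⟨s ∪ s', fun u => B u * B' u, fun δ q hq => Dioph.mul_dioph (hB δ q hq) (hB' δ q hq),
      ?_, ?_⟩
    · intro x u h
      have a1 := h1 x u (fun i hi => h i (Finset.mem_union_left _ hi))
      have a2 := h1' x u (fun i hi => h i (Finset.mem_union_right _ hi))
      simp only [Poly.mul_apply, Nat.cast_mul, abs_mul]
      exact mul_le_mul a1 a2 (abs_nonneg _) (Nat.cast_nonneg _)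
    · intro m x y h
      simp only [Poly.mul_apply]
      exact (h2 m x y (fun i hi => h i (Finset.mem_union_left _ hi))).mul
        (h2' m x y (fun i hi => h i (Finset.mem_union_right _ hi)))

/-- A finite conjunction of Diophantine conditions is Diophantine. -/
theorem forall_finset_dioph {α ι : Type} (s : Finset ι) (R : ι → Set (α → ℕ))
    (h : ∀ i ∈ s, Dioph (R i)) : Dioph {v | ∀ i ∈ s, v ∈ R i} := by
  classical
  induction s using Finset.induction_on with
  | empty =>
    refine Dioph.ext (S := {v : α → ℕ | (0 : ℕ) = 0})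
      (Dioph.eq_dioph (Dioph.const_dioph 0) (Dioph.const_dioph 0)) ?_
    intro v
    simp
  | insert a s ha ih =>
    have h1 := Dioph.inter (h a (by simp)) (ih (fun i hi => h i (by simp [hi])))
    refine Dioph.ext h1 ?_
    intro v
    simp

theorem ball_dioph {α : Type} {S : Set (Option α → ℕ)} (hS : Dioph S) {f : (α → ℕ) → ℕ}
    (hf : Dioph.DiophFn f) : Dioph {v : α → ℕ | ∀ k < f v, Option.elim' k v ∈ S} := by
  classical
  obtain ⟨β, p, hp⟩ := hS
  obtain ⟨s, B, hB, hbound, hcong⟩ := poly_support p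
  -- the environment: `none` is `c`, `some none` is `u`, the rest is `α ⊕ β`
  let E := Option (Option (α ⊕ β))
  let cc : (E → ℕ) → ℕ := fun w => w none
  let uu : (E → ℕ) → ℕ := fun w => w (some none)
  let pv : (E → ℕ) → (α → ℕ) := fun w a => w (some (some (Sum.inl a)))
  let tv : (E → ℕ) → (β → ℕ) := fun w b => w (some (some (Sum.inr b)))
  let yy : (E → ℕ) → ℕ := fun w => f (pv w)
  let QQ : (E → ℕ) → ℕ := fun w => B (uu w) + uu w + 1
  let MM : (E → ℕ) → ℕ := fun w => Nat.choose (cc w) (yy w)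
  have dc : Dioph.DiophFn cc := Dioph.proj_dioph _
  have du : Dioph.DiophFn uu := Dioph.proj_dioph _
  have dy : Dioph.DiophFn yy := Dioph.reindex_diophFn (fun a => some (some (Sum.inl a))) hf
  have dQ : Dioph.DiophFn QQ :=
    Dioph.add_dioph (Dioph.add_dioph (hB _ _ du) du) (Dioph.const_dioph 1)
  have dM : Dioph.DiophFn MM := choose_dioph dc dy
  let Cnd : (E → ℕ) → (Option α ⊕ β) → Prop := fun w j =>
    match j with
    | Sum.inl none => True
    | Sum.inl (some a) => pv w a ≤ uu w
    | Sum.inr b => MM w ∣ (tv w b).descFactorial (uu w + 1)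
  have dCnd : ∀ j, Dioph {w : E → ℕ | Cnd w j} := by
    rintro ((_ | a) | b)
    · refine Dioph.ext (S := {v : E → ℕ | (0 : ℕ) = 0})
        (Dioph.eq_dioph (Dioph.const_dioph 0) (Dioph.const_dioph 0)) ?_
      intro v; simp [Cnd]
    · exact Dioph.le_dioph (Dioph.proj_dioph _) du
    · exact Dioph.dvd_dioph dM (descFactorial_dioph (Dioph.proj_dioph _)
        (Dioph.add_dioph du (Dioph.const_dioph 1)))
  let q : Poly E := p.map (fun j => match j with
    | Sum.inl none => none
    | Sum.inl (some a) => some (some (Sum.inl a))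
    | Sum.inr b => some (some (Sum.inr b)))
  have dq : Dioph.DiophFn (fun w : E → ℕ => (q w).natAbs) := Dioph.abs_poly_dioph q
  let T : Set (E → ℕ) := {w | (∀ j ∈ s, Cnd w j) ∧ yy w ≤ uu w ∧ ((QQ w)!) ^ 2 ∣ cc w + 1 ∧
    3 * yy w ≤ cc w ∧ QQ w ≤ cc w ∧ MM w ∣ (q w).natAbs}
  have dT : Dioph T := by
    have h1 : Dioph {w : E → ℕ | ∀ j ∈ s, w ∈ {w | Cnd w j}} :=
      forall_finset_dioph s (fun j => {w | Cnd w j}) (fun j _ => dCnd j)
    have h2 : Dioph {w : E → ℕ | yy w ≤ uu w} := Dioph.le_dioph dy du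
    have h3 : Dioph {w : E → ℕ | ((QQ w)!) ^ 2 ∣ cc w + 1} :=
      Dioph.dvd_dioph (Dioph.pow_dioph (factorial_dioph dQ) (Dioph.const_dioph 2))
        (Dioph.add_dioph dc (Dioph.const_dioph 1))
    have h4 : Dioph {w : E → ℕ | 3 * yy w ≤ cc w} :=
      Dioph.le_dioph (Dioph.mul_dioph (Dioph.const_dioph 3) dy) dc
    have h5 : Dioph {w : E → ℕ | QQ w ≤ cc w} := Dioph.le_dioph dQ dc
    have h6 : Dioph {w : E → ℕ | MM w ∣ (q w).natAbs} := Dioph.dvd_dioph dM dq
    exact Dioph.ext (h1.inter (h2.inter (h3.inter (h4.inter (h5.inter h6))))) (fun w => by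
      simp only [T, Set.mem_inter_iff, Set.mem_ofPred_eq])
  have main := Dioph.ex_dioph (Dioph.ex1_dioph (Dioph.ex1_dioph dT))
  refine Dioph.ext main ?_
  intro v
  simp only [Set.mem_ofPred_eq]
  constructor
  · -- from the existential statement to the bounded universal one
    rintro ⟨t, u, c, hT⟩ k hk
    simp only [T, Set.mem_ofPred_eq] at hT
    obtain ⟨hC, hyu, hW, h3y, hQc, hMd⟩ := hT
    have ec : cc (Option.elim' c (Option.elim' u (Sum.elim v t))) = c := rfl
    have eu : uu (Option.elim' c (Option.elim' u (Sum.elim v t))) = u := rfl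
    have ey : yy (Option.elim' c (Option.elim' u (Sum.elim v t))) = f v := rfl
    have eQ : QQ (Option.elim' c (Option.elim' u (Sum.elim v t))) = B u + u + 1 := rfl
    have eM : MM (Option.elim' c (Option.elim' u (Sum.elim v t))) = Nat.choose c (f v) := rfl
    rw [ey, eu] at hyu
    rw [eQ, ec] at hW
    rw [ec, ey] at h3y
    rw [eM] at hMd
    rw [eQ, ec] at hQc
    set Q := B u + u + 1 with hQ
    have hyQ : f v ≤ Q := by omega
    have hkQ : k + 1 ≤ Q := by omega
    have hm2 := md_ge_two hW hyQ h3y hk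
    obtain ⟨r, hr, hrd⟩ := Nat.exists_prime_and_dvd (n := md c k) (by omega)
    have hrQ := md_prime hW hkQ hr hrd
    have hrM : r ∣ Nat.choose c (f v) := by
      rw [← md_prod hW hyQ]
      exact dvd_trans hrd (Finset.dvd_prod_of_mem _ (Finset.mem_range.2 hk))
    have hrc : r ∣ c - k := dvd_trans hrd (md_dvd_sub hW hkQ)
    have hkc : k ≤ c := by omega
    have hck : (c : ℤ) ≡ (k : ℤ) [ZMOD (r : ℤ)] := by
      have := (Nat.modEq_iff_dvd' hkc).2 hrc
      exact ((Int.natCast_modEq_iff).2 this).symm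
    rw [hp]
    refine ⟨fun b => t b % r, ?_⟩
    -- the values at `k`
    have hle : ∀ j ∈ s, Sum.elim (Option.elim' k v) (fun b => t b % r) j ≤ u := by
      rintro ((_ | a) | b) hj
      · show k ≤ u
        omega
      · exact hC _ hj
      · show t b % r ≤ u
        have h1 : MM (Option.elim' c (Option.elim' u (Sum.elim v t))) ∣
          (t b).descFactorial (u + 1) := hC _ hj
        rw [eM] at h1
        exact mod_le_of_dvd_descFactorial hr (by omega) (dvd_trans hrM h1)
    have hab := hbound _ u hle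
    have hmod : p (Sum.elim (Option.elim' k v) (fun b => t b % r)) ≡
        q (Option.elim' c (Option.elim' u (Sum.elim v t))) [ZMOD (r : ℤ)] := by
      show _ ≡ p _ [ZMOD (r : ℤ)]
      apply hcong
      rintro ((_ | a) | b) hj
      · exact hck.symm
      · exact Int.ModEq.refl _
      · show ((t b % r : ℕ) : ℤ) ≡ (t b : ℤ) [ZMOD (r : ℤ)]
        rw [Int.natCast_modEq_iff]
        exact Nat.mod_modEq _ _
    have hq0 : q (Option.elim' c (Option.elim' u (Sum.elim v t))) ≡ 0 [ZMOD (r : ℤ)] := by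
      rw [Int.modEq_zero_iff_dvd]
      exact Int.natCast_dvd.2 (dvd_trans hrM hMd)
    have hp0 := hmod.trans hq0
    rw [Int.modEq_zero_iff_dvd] at hp0
    exact Int.eq_zero_of_abs_lt_dvd hp0 (by
      have : (B u : ℤ) < r := by exact_mod_cast (by omega : B u < r)
      omega)
  · -- from the bounded universal statement to the existential one
    intro hall
    have hall' : ∀ k, ∃ t : β → ℕ, k < f v → p (Sum.elim (Option.elim' k v) t) = 0 := by
      intro k
      by_cases hk : k < f v
      · obtain ⟨t, ht⟩ := (hp _).1 (hall k hk)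
        exact ⟨t, fun _ => ht⟩
      · exact ⟨fun _ => 0, fun h => absurd h hk⟩
    choose t ht using hall'
    -- a bound for everything
    let val : ℕ → (Option α ⊕ β) → ℕ := fun k => Sum.elim (Option.elim' k v) (t k)
    let u : ℕ := f v + ∑ k ∈ range (f v), ∑ j ∈ s, val k j + ∑ j ∈ s, val 0 j
    have hu1 : f v ≤ u := by simp only [u]; omega
    have hu2 : ∀ k < f v, ∀ j ∈ s, val k j ≤ u := by
      intro k hk j hj
      have h1 : val k j ≤ ∑ j ∈ s, val k j :=
        Finset.single_le_sum (f := fun j => val k j) (fun _ _ => Nat.zero_le _) hj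
      have h2 : ∑ j ∈ s, val k j ≤ ∑ k ∈ range (f v), ∑ j ∈ s, val k j :=
        Finset.single_le_sum (f := fun k => ∑ j ∈ s, val k j) (fun _ _ => Nat.zero_le _)
          (Finset.mem_range.2 hk)
      simp only [u]; omega
    have hu3 : ∀ j ∈ s, val 0 j ≤ u := by
      intro j hj
      have h1 : val 0 j ≤ ∑ j ∈ s, val 0 j :=
        Finset.single_le_sum (f := fun j => val 0 j) (fun _ _ => Nat.zero_le _) hj
      simp only [u]; omega
    set Q := B u + u + 1 with hQ
    let c : ℕ := (Q !) ^ 2 * (3 * f v + Q + 1) - 1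
    have hc1 : c + 1 = (Q !) ^ 2 * (3 * f v + Q + 1) := by
      have : 0 < (Q !) ^ 2 * (3 * f v + Q + 1) := by positivity
      simp only [c]; omega
    have hc2 : 3 * f v + Q ≤ c := by
      have h1 : 1 * (3 * f v + Q + 1) ≤ (Q !) ^ 2 * (3 * f v + Q + 1) :=
        Nat.mul_le_mul_right _ (Nat.one_le_iff_ne_zero.2 (by positivity))
      omega
    have hW : (Q !) ^ 2 ∣ c + 1 := ⟨_, hc1⟩
    have hyQ : f v ≤ Q := by omega
    have hcop : (↑(range (f v)) : Set ℕ).Pairwise (Function.onFun Nat.Coprime (md c)) := by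
      intro k hk l hl hkl
      rw [Finset.mem_coe, Finset.mem_range] at hk hl
      exact md_coprime hW (by omega) (by omega) (by omega) hkl
    have hne : ∀ k ∈ range (f v), md c k ≠ 0 := by
      intro k hk
      rw [Finset.mem_range] at hk
      have := md_ge_two hW hyQ (by omega) hk
      omega
    have hcrt : ∀ b : β, ∃ a : ℕ, ∀ k ∈ range (f v), a ≡ t k b [MOD md c k] := fun b =>
      ⟨(Nat.chineseRemainderOfFinset (fun k => t k b) (md c) (range (f v)) hne hcop).1,
        (Nat.chineseRemainderOfFinset (fun k => t k b) (md c) (range (f v)) hne hcop).2⟩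
    choose a ha using hcrt
    have hprod : ∀ z : ℕ, (∀ k ∈ range (f v), md c k ∣ z) → Nat.choose c (f v) ∣ z := by
      intro z hz
      rw [← md_prod hW hyQ]
      exact Finset.prod_dvd_of_isRelPrime
        (fun k hk l hl hkl => Nat.coprime_iff_isRelPrime.1 (hcop hk hl hkl)) hz
    refine ⟨a, u, c, ?_⟩
    refine ⟨?_, hu1, hW, ?_, ?_, ?_⟩
    · rintro ((_ | i) | b) hj
      · trivial
      · exact hu3 _ hj
      · show Nat.choose c (f v) ∣ (a b).descFactorial (u + 1)
        apply hprod
        intro k hk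
        exact dvd_descFactorial_of_modEq (ha b k hk) (hu2 k (Finset.mem_range.1 hk) _ hj)
    · show 3 * f v ≤ c
      omega
    · show Q ≤ c
      omega
    · show Nat.choose c (f v) ∣ (q (Option.elim' c (Option.elim' u (Sum.elim v a)))).natAbs
      apply hprod
      intro k hk
      rw [← Int.natCast_dvd]
      have hk' := Finset.mem_range.1 hk
      have hmod : q (Option.elim' c (Option.elim' u (Sum.elim v a))) ≡
          p (Sum.elim (Option.elim' k v) (t k)) [ZMOD (md c k : ℤ)] := by
        show p _ ≡ _ [ZMOD _]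
        apply hcong
        rintro ((_ | i) | b) hj
        · show (c : ℤ) ≡ (k : ℤ) [ZMOD _]
          have hkc : k ≤ c := by omega
          have := (Nat.modEq_iff_dvd' hkc).2 (md_dvd_sub hW (by omega))
          exact ((Int.natCast_modEq_iff).2 this).symm
        · exact Int.ModEq.refl _
        · exact (Int.natCast_modEq_iff).2 (ha b k hk)
      rw [ht k hk'] at hmod
      exact (Int.modEq_zero_iff_dvd).1 hmod

end Pool.Agent.Work.MP_4f56fb_lc
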