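import Mathlib
import Pool.Agent.Work.MP_4f56fb_lc.Ball

/-! Graphs of computable functions are Diophantine. -/

set_option autoImplicit false

namespace Pool.Agent.Work.MP_4f56fb_lc

open Dioph

theorem ex_D {α : Type} {P : ℕ → (α → ℕ) → Prop}
    (h : Dioph {w : Option α → ℕ | P (w none) (fun a => w (some a))}) :
    Dioph {v | ∃ x, P x v} :=
  Dioph.ext (Dioph.ex1_dioph h) (fun _ => Iff.rfl)

theorem all_D {α : Type} {P : ℕ → (α → ℕ) → Prop} {f : (α → ℕ) → ℕ} (hf : DiophFn f)
    (h : Dioph {w : Option α → ℕ | P (w none) (fun a => w (some a))}) :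
    Dioph {v | ∀ k < f v, P k v} :=
  Dioph.ext (ball_dioph h hf) (fun _ => Iff.rfl)

theorem and_D {α : Type} {P Q : (α → ℕ) → Prop} (h : Dioph {v | P v}) (h' : Dioph {v | Q v}) :
    Dioph {v | P v ∧ Q v} :=
  Dioph.ext (h.inter h') (fun _ => Iff.rfl)

theorem up {α : Type} {f : (α → ℕ) → ℕ} (hf : DiophFn f) :
    DiophFn (fun w : Option α → ℕ => f (fun a => w (some a))) :=
  Dioph.reindex_diophFn some hf

theorem none_D {α : Type} : DiophFn (fun w : Option α → ℕ => w none) := Dioph.proj_dioph _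

theorem pair_dioph {α : Type} {f g : (α → ℕ) → ℕ} (hf : DiophFn f) (hg : DiophFn g) :
    DiophFn (fun v => Nat.pair (f v) (g v)) := by
  have h : (fun v => Nat.pair (f v) (g v)) = fun v =>
      (1 - (1 - (g v - f v))) * (g v * g v + f v) + (1 - (g v - f v)) * (f v * f v + f v + g v) := by
    funext v
    unfold Nat.pair
    by_cases hlt : f v < g v
    · rw [if_pos hlt]
      have h1 : 1 - (g v - f v) = 0 := by omega
      rw [h1]; simp
    · rw [if_neg hlt]
      have h1 : 1 - (g v - f v) = 1 := by omega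
      rw [h1]; simp
  rw [h]
  have h1 : DiophFn (fun v => 1 - (g v - f v)) := sub_dioph (const_dioph 1) (sub_dioph hg hf)
  exact add_dioph (mul_dioph (sub_dioph (const_dioph 1) h1) (add_dioph (mul_dioph hg hg) hf))
    (mul_dioph h1 (add_dioph (add_dioph (mul_dioph hf hf) hf) hg))

/-- A binary relation on `ℕ` that is Diophantine under all Diophantine substitutions. -/
def DRel (R : ℕ → ℕ → Prop) : Prop :=
  ∀ (α : Type) (f g : (α → ℕ) → ℕ), DiophFn f → DiophFn g → Dioph {v | R (f v) (g v)}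

/-- Digits. -/
def sq (c b i : ℕ) : ℕ := c / b ^ i % b

theorem sq_dioph {α : Type} {c b i : (α → ℕ) → ℕ} (hc : DiophFn c) (hb : DiophFn b)
    (hi : DiophFn i) : DiophFn (fun v => sq (c v) (b v) (i v)) :=
  mod_dioph (div_dioph hc (pow_dioph hb hi)) hb

theorem exists_sq (n : ℕ) (s : ℕ → ℕ) : ∃ c b, ∀ i < n, sq c b i = s i := by
  -- base larger than all values
  let b : ℕ := ∑ i ∈ Finset.range n, s i + 2
  have hb : ∀ i < n, s i < b := by
    intro i hi
    have : s i ≤ ∑ i ∈ Finset.range n, s i :=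
      Finset.single_le_sum (f := s) (fun _ _ => Nat.zero_le _) (Finset.mem_range.2 hi)
    simp only [b]; omega
  let c : ℕ := Nat.ofDigits b ((List.range n).map s)
  have hd : ∀ i, i < n → (c / b ^ i % b) = s i := by
    intro i hi
    have h1 : ∀ (l : List ℕ), (∀ x ∈ l, x < b) → ∀ i, ∀ h : i < l.length,
        Nat.ofDigits b l / b ^ i % b = l[i] := by
      intro l
      induction l with
      | nil => intro _ i h; simp at h
      | cons a l ih =>
        intro hl i h
        have ha : a < b := hl a (by simp)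
        rw [Nat.ofDigits_cons]
        rcases i with _ | i
        · simp [Nat.mod_eq_of_lt ha]
        · rw [pow_succ', ← Nat.div_div_eq_div_mul]
          have h2 : (((a : ℕ)) + b * Nat.ofDigits b l) / b = Nat.ofDigits b l := by
            rw [Nat.add_mul_div_left _ _ (by omega), Nat.div_eq_of_lt ha, zero_add]
          rw [h2]
          have := ih (fun x hx => hl x (by simp [hx])) i (by simpa using h)
          simpa using this
    have h2 := h1 ((List.range n).map s) (by
      intro x hx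
      simp only [List.mem_map, List.mem_range] at hx
      obtain ⟨j, hj, rfl⟩ := hx
      exact hb j hj) i (by simpa using hi)
    rw [h2]
    simp
  exact ⟨c, b, hd⟩

theorem key_bind (F G : ℕ → Part ℕ) (x y : ℕ) :
    y ∈ (G x >>= F) ↔ ∃ z, z ∈ G x ∧ y ∈ F z := by
  simp [Part.bind_eq_bind, Part.mem_bind_iff]

theorem key_pair (F G : ℕ → Part ℕ) (x y : ℕ) :
    y ∈ (Nat.pair <$> F x <*> G x) ↔ ∃ a b, (a ∈ F x ∧ b ∈ G x) ∧ Nat.pair a b = y := by
  simp only [Seq.seq, Part.map_eq_map, Part.mem_bind_iff, Part.mem_map_iff]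
  constructor
  · rintro ⟨_, ⟨a, ha, rfl⟩, b, hb, h⟩
    exact ⟨a, b, ⟨ha, hb⟩, h⟩
  · rintro ⟨a, b, ⟨ha, hb⟩, h⟩
    exact ⟨_, ⟨a, ha, rfl⟩, b, hb, h⟩

theorem key_rfind (F : ℕ → Part ℕ) (x n : ℕ) :
    n ∈ (Nat.rfind (fun n => (fun m => decide (m = 0)) <$> F (Nat.pair x n))) ↔
      0 ∈ F (Nat.pair x n) ∧ ∀ i < n, ∃ m, m ∈ F (Nat.pair x i) ∧ m ≠ 0 := by
  refine Iff.trans Nat.mem_rfind ?_
  have e : ∀ (m : ℕ) (b : Bool), b ∈ (fun n => (fun m => decide (m = 0)) <$> F (Nat.pair x n)) m ↔
      ∃ k, k ∈ F (Nat.pair x m) ∧ decide (k = 0) = b := by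
    intro m b
    simp only [Part.map_eq_map, Part.mem_map_iff]
  refine Iff.trans (and_congr (e n true) (forall_congr' fun m => imp_congr_right fun _ =>
    e m false)) ?_
  constructor
  · rintro ⟨⟨a, ha, ha0⟩, hall⟩
    have : a = 0 := by simpa using ha0
    subst this
    refine ⟨ha, fun i hi => ?_⟩
    obtain ⟨k, hk, hk0⟩ := hall i hi
    exact ⟨k, hk, by simpa using hk0⟩
  · rintro ⟨h0, hall⟩
    refine ⟨⟨0, h0, by simp⟩, fun m hm => ?_⟩
    obtain ⟨k, hk, hk0⟩ := hall m hm
    exact ⟨k, hk, by simp [hk0]⟩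

theorem key_prec (F G : ℕ → Part ℕ) (a n z : ℕ) :
    z ∈ (Nat.rec (F a) (fun y IH => IH >>= fun i => G (Nat.pair a (Nat.pair y i))) n : Part ℕ) ↔
      ∃ s : ℕ → ℕ, s 0 ∈ F a ∧ (∀ i < n, s (i + 1) ∈ G (Nat.pair a (Nat.pair i (s i)))) ∧
        s n = z := by
  induction n generalizing z with
  | zero =>
    constructor
    · intro h
      exact ⟨fun _ => z, h, fun i hi => absurd hi (Nat.not_lt_zero _), rfl⟩
    · rintro ⟨s, h0, _, rfl⟩
      exact h0
  | succ n ih =>
    show z ∈ ((Nat.rec (F a) (fun y IH => IH >>= fun i => G (Nat.pair a (Nat.pair y i))) n :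
      Part ℕ) >>= fun i => G (Nat.pair a (Nat.pair n i))) ↔ _
    simp only [Part.bind_eq_bind, Part.mem_bind_iff]
    constructor
    · rintro ⟨i, hi, hz⟩
      obtain ⟨s, h0, hs, rfl⟩ := (ih _).1 hi
      refine ⟨fun j => if j ≤ n then s j else z, by simpa using h0, fun j hj => ?_, by simp⟩
      by_cases hjn : j < n
      · have h1 : j + 1 ≤ n := hjn
        have h2 : j ≤ n := by omega
        simp only [h1, h2, if_true]
        exact hs j hjn
      · have h3 : j = n := by omega
        subst h3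
        simpa using hz
    · rintro ⟨s, h0, hs, rfl⟩
      exact ⟨s n, (ih _).2 ⟨s, h0, fun i hi => hs i (by omega), rfl⟩, hs n (by omega)⟩

theorem rec_dioph {f : ℕ →. ℕ} (hf : Nat.Partrec f) : DRel (fun x y => y ∈ f x) := by
  induction hf with
  | zero =>
    intro α f g _ hg
    refine Dioph.ext (eq_dioph hg (const_dioph 0)) (fun v => ?_)
    show g v = 0 ↔ g v ∈ (pure 0 : Part ℕ)
    simp
  | succ =>
    intro α f g hf hg
    refine Dioph.ext (eq_dioph hg (add_dioph hf (const_dioph 1))) (fun v => ?_)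
    show g v = f v + 1 ↔ g v ∈ (Nat.succ : ℕ →. ℕ) (f v)
    simp
  | left =>
    intro α f g hf hg
    have h : Dioph {v : α → ℕ | ∃ b, Nat.pair (g v) b = f v} :=
      ex_D (P := fun b v => Nat.pair (g v) b = f v) (eq_dioph (pair_dioph (up hg) none_D) (up hf))
    refine Dioph.ext h (fun v => ?_)
    show (∃ b, Nat.pair (g v) b = f v) ↔ g v ∈ ((fun n => n.unpair.1 : ℕ → ℕ) : ℕ →. ℕ) (f v)
    constructor
    · rintro ⟨b, hb⟩
      simp [← hb]
    · intro h
      simp at h
      exact ⟨(f v).unpair.2, by rw [h]; exact Nat.pair_unpair _⟩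
  | right =>
    intro α f g hf hg
    have h : Dioph {v : α → ℕ | ∃ b, Nat.pair b (g v) = f v} :=
      ex_D (P := fun b v => Nat.pair b (g v) = f v) (eq_dioph (pair_dioph none_D (up hg)) (up hf))
    refine Dioph.ext h (fun v => ?_)
    show (∃ b, Nat.pair b (g v) = f v) ↔ g v ∈ ((fun n => n.unpair.2 : ℕ → ℕ) : ℕ →. ℕ) (f v)
    constructor
    · rintro ⟨b, hb⟩
      simp [← hb]
    · intro h
      simp at h
      exact ⟨(f v).unpair.1, by rw [h]; exact Nat.pair_unpair _⟩
  | @pair F G _ _ ihF ihG =>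
    intro α f g hf hg
    have h : Dioph {v : α → ℕ | ∃ a, ∃ b, (a ∈ F (f v) ∧ b ∈ G (f v)) ∧ Nat.pair a b = g v} := by
      apply ex_D (P := fun a v => ∃ b, (a ∈ F (f v) ∧ b ∈ G (f v)) ∧ Nat.pair a b = g v)
      apply ex_D (P := fun b (w : Option α → ℕ) => ((w none) ∈ F (f (fun a => w (some a))) ∧
        b ∈ G (f (fun a => w (some a)))) ∧ Nat.pair (w none) b = g (fun a => w (some a)))
      apply and_D
      · apply and_D
        · exact ihF _ _ _ (up (up hf)) (up none_D)
        · exact ihG _ _ _ (up (up hf)) none_D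
      · exact eq_dioph (pair_dioph (up none_D) none_D) (up (up hg))
    exact Dioph.ext h (fun v => (key_pair F G (f v) (g v)).symm)
  | @comp F G _ _ ihF ihG =>
    intro α f g hf hg
    have h : Dioph {v : α → ℕ | ∃ y, y ∈ G (f v) ∧ g v ∈ F y} := by
      apply ex_D (P := fun y v => y ∈ G (f v) ∧ g v ∈ F y)
      apply and_D
      · exact ihG _ _ _ (up hf) none_D
      · exact ihF _ _ _ none_D (up hg)
    exact Dioph.ext h (fun v => (key_bind F G (f v) (g v)).symm)
  | @prec F G _ _ ihF ihG =>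
    intro α f g hf hg
    have h : Dioph {v : α → ℕ | ∃ a, ∃ n, ∃ c, ∃ b, (Nat.pair a n = f v ∧ sq c b 0 ∈ F a) ∧
        (∀ i < n, sq c b (i + 1) ∈ G (Nat.pair a (Nat.pair i (sq c b i)))) ∧
        sq c b n = g v} := by
      apply ex_D
      apply ex_D
      apply ex_D
      apply ex_D
      apply and_D
      · apply and_D
        · exact eq_dioph (pair_dioph (up (up (up none_D))) (up (up none_D)))
            (up (up (up (up hf))))
        · exact ihF _ _ _ (up (up (up none_D))) (sq_dioph (up none_D) none_D (const_dioph 0))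
      · apply and_D
        · refine all_D (P := fun i (w : Option (Option (Option (Option α))) → ℕ) =>
            sq (w (some none)) (w none) (i + 1) ∈ G (Nat.pair (w (some (some (some none))))
              (Nat.pair i (sq (w (some none)) (w none) i)))) (up (up none_D)) ?_
          have dc := up (up (none_D (α := Option (Option (Option α)))))
          exact ihG _ _ _ (pair_dioph (up (up (up (up none_D)))) (pair_dioph none_D
            (sq_dioph (up (up none_D)) (up none_D) none_D)))
            (sq_dioph (up (up none_D)) (up none_D) (add_dioph none_D (const_dioph 1)))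
        · exact eq_dioph (sq_dioph (up none_D) none_D (up (up none_D)))
            (up (up (up (up hg))))
    refine Dioph.ext h (fun v => ?_)
    constructor
    · rintro ⟨a, n, c, b, ⟨h1, h2⟩, h3, h4⟩
      have h5 := (key_prec F G a n (g v)).2 ⟨fun i => sq c b i, h2, h3, h4⟩
      show g v ∈ Nat.unpaired (fun a n => (Nat.rec (F a)
        (fun y IH => IH >>= fun i => G (Nat.pair a (Nat.pair y i))) n : Part ℕ)) (f v)
      rw [← h1]
      simpa [Nat.unpaired] using h5
    · intro h1
      have h1 : g v ∈ Nat.unpaired (fun a n => (Nat.rec (F a)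
        (fun y IH => IH >>= fun i => G (Nat.pair a (Nat.pair y i))) n : Part ℕ)) (f v) := h1
      unfold Nat.unpaired at h1
      obtain ⟨s, h2, h3, h4⟩ := (key_prec F G (f v).unpair.1 (f v).unpair.2 (g v)).1 h1
      obtain ⟨c, b, hcb⟩ := exists_sq ((f v).unpair.2 + 1) s
      refine ⟨(f v).unpair.1, (f v).unpair.2, c, b, ⟨Nat.pair_unpair _, ?_⟩, ?_, ?_⟩
      · rw [hcb 0 (by omega)]; exact h2
      · intro i hi
        rw [hcb i (by omega), hcb (i + 1) (by omega)]
        exact h3 i hi
      · rw [hcb _ (by omega)]; exact h4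
  | @rfind F _ ih =>
    intro α f g hf hg
    have h : Dioph {v : α → ℕ | 0 ∈ F (Nat.pair (f v) (g v)) ∧
        ∀ i < g v, ∃ m, m ∈ F (Nat.pair (f v) i) ∧ m ≠ 0} := by
      apply and_D
      · exact ih _ _ _ (pair_dioph hf hg) (const_dioph 0)
      · apply all_D (P := fun i v => ∃ m, m ∈ F (Nat.pair (f v) i) ∧ m ≠ 0) hg
        apply ex_D (P := fun m (w : Option α → ℕ) =>
          m ∈ F (Nat.pair (f (fun a => w (some a))) (w none)) ∧ m ≠ 0)
        apply and_D
        · exact ih _ _ _ (pair_dioph (up (up hf)) (up none_D)) none_D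
        · exact ne_dioph none_D (const_dioph 0)
    exact Dioph.ext h (fun v => (key_rfind F (f v) (g v)).symm)

end Pool.Agent.Work.MP_4f56fb_lc
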