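import Mathlib
import Pool.Agent.Work.MP_4f56fb_lc.PP
import Pool.Agent.Work.MP_4f56fb_lc.Rec

/-! Every recursively enumerable set is positive primitive definable. -/

set_option autoImplicit false

namespace Pool.Agent.Work.MP_4f56fb_lc

theorem dioph_fin {α : Type} {S : Set (α → ℕ)} (h : Dioph S) :
    ∃ (β : Type) (_ : Fintype β) (p : Poly (α ⊕ β)), ∀ v, v ∈ S ↔ ∃ t, p (Sum.elim v t) = 0 := by
  classical
  obtain ⟨β, p, hp⟩ := h
  obtain ⟨s, B, _, _, hcong⟩ := poly_support p
  have hsupp : ∀ x y : α ⊕ β → ℕ, (∀ i ∈ s, x i = y i) → p x = p y := by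
    intro x y hxy
    have := hcong 0 x y (fun i hi => by rw [hxy i hi])
    exact Int.modEq_zero_iff.1 this
  let β' := {b : β // Sum.inr b ∈ s}
  have hfin : Finite β' := by
    have : Function.Injective (fun b : β' => (⟨Sum.inr b.1, b.2⟩ : {x // x ∈ s})) := by
      intro a b hab
      have := congrArg Subtype.val hab
      exact Subtype.ext (Sum.inr_injective this)
    exact Finite.of_injective _ this
  let gb : β → Option β' := fun b => if h : Sum.inr b ∈ s then some ⟨b, h⟩ else none
  refine ⟨Option β', Fintype.ofFinite _, p.map (Sum.map id gb), fun v => ?_⟩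
  rw [hp v]
  constructor
  · rintro ⟨t, ht⟩
    refine ⟨fun o => Option.elim o 0 (fun b => t b.1), ?_⟩
    rw [Poly.map_apply, ← ht]
    apply hsupp
    rintro (a | b) hi
    · rfl
    · show Option.elim (gb b) 0 (fun b => t b.1) = t b
      have : gb b = some ⟨b, hi⟩ := by simp [gb, hi]
      rw [this]; rfl
  · rintro ⟨t, ht⟩
    refine ⟨fun b => t (gb b), ?_⟩
    rw [Poly.map_apply] at ht
    rw [← ht]
    congr 1
    funext i
    rcases i with a | b <;> rfl

theorem poly_pf {γ : Type} (p : Poly γ) :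
    ∃ P N : (γ → ℕ) → ℕ, PF P ∧ PF N ∧
      ∀ x : γ → ℕ, (∀ i, 0 < x i) → p (fun i => x i - 1) = (P x : ℤ) - (N x : ℤ) := by
  refine Poly.induction (C := fun p => ∃ P N : (γ → ℕ) → ℕ, PF P ∧ PF N ∧
      ∀ x : γ → ℕ, (∀ i, 0 < x i) → p (fun i => x i - 1) = (P x : ℤ) - (N x : ℤ)) ?_ ?_ ?_ ?_ p
  · intro i
    refine ⟨fun x => x i, fun _ => 1, PF.proj i, PF.one, fun x hx => ?_⟩
    have := hx i
    simp only [Poly.proj_apply]
    omega
  · intro n
    refine ⟨fun _ => n.toNat + 1, fun _ => (-n).toNat + 1, PF.const _, PF.const _, fun x hx => ?_⟩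
    simp only [Poly.const_apply]
    omega
  · rintro f g ⟨P, N, hP, hN, h⟩ ⟨P', N', hP', hN', h'⟩
    refine ⟨fun x => P x + N' x, fun x => N x + P' x, hP.add hN', hN.add hP', fun x hx => ?_⟩
    rw [Poly.sub_apply, h x hx, h' x hx]
    push_cast; ring
  · rintro f g ⟨P, N, hP, hN, h⟩ ⟨P', N', hP', hN', h'⟩
    refine ⟨fun x => P x * P' x + N x * N' x, fun x => P x * N' x + N x * P' x,
      (hP.mul hP').add (hN.mul hN'), (hP.mul hN').add (hN.mul hP'), fun x hx => ?_⟩
    rw [Poly.mul_apply, h x hx, h' x hx]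
    push_cast; ring

theorem dioph_pp {α : Type} {S : Set (α → ℕ)} (h : Dioph S) :
    PP (fun x : α → ℕ => (fun a => x a - 1) ∈ S) := by
  obtain ⟨β, hβ, p, hp⟩ := dioph_fin h
  obtain ⟨P, N, hP, hN, hPN⟩ := poly_pf p
  have h1 : PP (fun v : α → ℕ => ∃ t : β → ℕ, (∀ b, 0 < t b) ∧
      P (Sum.elim v t) = N (Sum.elim v t)) := (PF.eq hP hN).exs
  refine h1.congr ?_
  intro v hv
  rw [hp]
  constructor
  · rintro ⟨t, ht, he⟩
    refine ⟨fun b => t b - 1, ?_⟩
    have hpos : ∀ i, 0 < Sum.elim v t i := by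
      rintro (i | i)
      · exact hv i
      · exact ht i
    have := hPN _ hpos
    rw [he, sub_self] at this
    rw [← this]
    congr 1
    funext i; rcases i with i | i <;> rfl
  · rintro ⟨t, ht⟩
    refine ⟨fun b => t b + 1, fun b => Nat.succ_pos _, ?_⟩
    have hpos : ∀ i, 0 < Sum.elim v (fun b => t b + 1) i := by
      rintro (i | i)
      · exact hv i
      · exact Nat.succ_pos _
    have := hPN _ hpos
    have e : (fun i => Sum.elim v (fun b => t b + 1) i - 1) = Sum.elim (fun a => v a - 1) t := by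
      funext i; rcases i with i | i <;> simp
    rw [e, ht] at this
    omega

/-- A recursively enumerable, non-recursive set. -/
def KK (m : ℕ) : Prop := (Nat.Partrec.Code.eval (Denumerable.ofNat Nat.Partrec.Code m) 0).Dom

theorem kk_not_computable : ¬ ComputablePred KK := by
  intro h
  apply ComputablePred.halting_problem 0
  have h2 : ComputablePred (fun c : Nat.Partrec.Code => KK (Encodable.encode c)) :=
    ComputablePred.computable_of_manyOneReducible
      ⟨Encodable.encode, Computable.encode, fun _ => Iff.rfl⟩ h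
  refine h2.of_eq (fun c => ?_)
  unfold KK
  rw [Denumerable.ofNat_encode]

theorem kk_dioph : Dioph {v : Unit → ℕ | KK (v ())} := by
  have h1 : Partrec (fun m : ℕ =>
      Nat.Partrec.Code.eval (Denumerable.ofNat Nat.Partrec.Code m) 0) :=
    Nat.Partrec.Code.eval_part.comp (Computable.ofNat _) (Computable.const 0)
  have h2 := rec_dioph (Partrec.nat_iff.1 h1)
  have h3 : Dioph {v : Unit → ℕ | ∃ y, y ∈ (fun m : ℕ =>
      Nat.Partrec.Code.eval (Denumerable.ofNat Nat.Partrec.Code m) 0) (v ())} := by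
    apply ex_D
    exact h2 _ _ _ (up (Dioph.proj_dioph ())) none_D
  refine Dioph.ext h3 (fun v => ?_)
  show (∃ y, y ∈ Nat.Partrec.Code.eval (Denumerable.ofNat Nat.Partrec.Code (v ())) 0) ↔ KK (v ())
  unfold KK
  rw [Part.dom_iff_mem]

/-- The non-recursive set is defined by one finite system of equations. -/
theorem kk_system : ∃ (N : ℕ) (L : List (Cstr ℕ)), (∀ c ∈ L, isEq c) ∧ ∀ n : ℕ,
    (KK n ↔ ∃ v : ℕ → ℕ, (∀ i, 0 < v i) ∧ v 0 = n + 1 ∧
      (∀ i, v (N + i + 1) = i + 1) ∧ ∀ c ∈ L, holds v c) ∧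
    ∀ (v : ℕ → ℕ), (∀ i, 0 < v i) → v 0 = n + 1 → (∀ c ∈ L, holds v c) → KK n := by
  obtain ⟨β, hβ, L, hL, H⟩ := dioph_pp kk_dioph
  let N := Fintype.card β
  let e : β ≃ Fin N := Fintype.equivFin β
  let g : Unit ⊕ β → ℕ := Sum.elim (fun _ => 0) (fun b => (e b : ℕ) + 1)
  have back : ∀ (n : ℕ) (v : ℕ → ℕ), (∀ i, 0 < v i) → v 0 = n + 1 →
      (∀ c ∈ L.map (cmap g), holds v c) → KK n := by
    intro n v hv h0 hc
    have h1 := (H (fun _ => v 0) (fun _ => hv 0)).2 ⟨fun b => v (g (Sum.inr b)),
      fun b => hv _, fun c hcL => by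
        have := hc _ (List.mem_map_of_mem hcL)
        rw [holds_cmap] at this
        convert! this using 1
        funext i; rcases i with i | i <;> rfl⟩
    have h2 : KK (v 0 - 1) := h1
    rw [h0] at h2
    exact h2
  refine ⟨N, L.map (cmap g), ?_, fun n => ⟨?_, fun v hv h0 hc => back n v hv h0 hc⟩⟩
  · intro c hc
    rw [List.mem_map] at hc
    obtain ⟨c', hc', rfl⟩ := hc
    rw [isEq_cmap]; exact hL c' hc'
  · constructor
    · intro hK
      have h1 : (fun a : Unit => (fun _ : Unit => n + 1) a - 1) ∈ {v : Unit → ℕ | KK (v ())} := hK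
      obtain ⟨t, ht, hc⟩ := (H (fun _ => n + 1) (fun _ => Nat.succ_pos _)).1 h1
      let v : ℕ → ℕ := fun i => if i = 0 then n + 1 else
        if h : i - 1 < N then t (e.symm ⟨i - 1, h⟩) else i - N
      have hv0 : v 0 = n + 1 := by simp [v]
      have hvb : ∀ b, v (g (Sum.inr b)) = t b := by
        intro b
        simp [v, g]
      refine ⟨v, ?_, hv0, ?_, ?_⟩
      · intro i
        simp only [v]
        split_ifs with h1 h2
        · omega
        · exact ht _
        · omega
      · intro i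
        simp only [v]
        rw [if_neg (by omega), dif_neg (by omega)]
        omega
      · intro c hc'
        rw [List.mem_map] at hc'
        obtain ⟨c', hc', rfl⟩ := hc'
        rw [holds_cmap]
        convert! hc c' hc' using 1
        funext i
        rcases i with i | i
        · exact hv0
        · exact hvb i
    · rintro ⟨v, hv, h0, _, hc⟩
      exact back n v hv h0 hc

/-- The counting constraints: `v (N+1) = 1`, `v (N+i+2) = v (N+i+1) + v (N+1)`, and
`v (N+n+2) = v 0 + v (N+1)`. -/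
def chain (N n : ℕ) : List (Cstr ℕ) :=
  Sum.inr (Sum.inr (Sum.inr (N + 1))) :: Sum.inl (N + n + 2, 0, N + 1) ::
    (List.range (n + 1)).map (fun i => Sum.inl (N + i + 2, N + i + 1, N + 1))

theorem chain_isEq (N n : ℕ) : ∀ c ∈ chain N n, isEq c := by
  intro c hc
  unfold chain at hc
  rw [List.mem_cons, List.mem_cons, List.mem_map] at hc
  rcases hc with rfl | rfl | ⟨i, _, rfl⟩ <;> trivial

theorem chain_spec (N n : ℕ) (v : ℕ → ℕ) (h : ∀ c ∈ chain N n, holds v c) : v 0 = n + 1 := by
  unfold chain at h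
  have h1 : v (N + 1) = 1 := h (Sum.inr (Sum.inr (Sum.inr (N + 1)))) (by simp)
  have h2 : v (N + n + 2) = v 0 + v (N + 1) := h (Sum.inl (N + n + 2, 0, N + 1)) (by simp)
  have h3 : ∀ i, i ≤ n → v (N + i + 2) = v (N + i + 1) + v (N + 1) := by
    intro i hi
    exact h (Sum.inl (N + i + 2, N + i + 1, N + 1)) (by
      rw [List.mem_cons, List.mem_cons, List.mem_map]
      right; right
      exact ⟨i, List.mem_range.2 (by omega), rfl⟩)
  have h4 : ∀ i, i ≤ n + 1 → v (N + i + 1) = i + 1 := by
    intro i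
    induction i with
    | zero => intro _; exact h1
    | succ i ih =>
      intro hi
      have := h3 i (by omega)
      have h5 := ih (by omega)
      have h6 : N + (i + 1) + 1 = N + i + 2 := by ring
      rw [h6, this, h5, h1]
  have h7 := h4 (n + 1) (le_refl _)
  have h8 : N + (n + 1) + 1 = N + n + 2 := by ring
  rw [h8] at h7
  omega

theorem chain_holds (N n : ℕ) (v : ℕ → ℕ) (h0 : v 0 = n + 1) (h : ∀ i, v (N + i + 1) = i + 1) :
    ∀ c ∈ chain N n, holds v c := by
  intro c hc
  unfold chain at hc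
  rw [List.mem_cons, List.mem_cons, List.mem_map] at hc
  have h1 : v (N + 1) = 1 := h 0
  have h2 : ∀ i, v (N + i + 2) = i + 2 := fun i => h (i + 1)
  rcases hc with rfl | rfl | ⟨i, _, rfl⟩
  · exact h1
  · show v (N + n + 2) = v 0 + v (N + 1)
    rw [h2, h0, h1]
  · show v (N + i + 2) = v (N + i + 1) + v (N + 1)
    rw [h2, h, h1]

theorem chain_computable (N : ℕ) (L : List (Cstr ℕ)) :
    Computable (fun n => L ++ chain N n) := by
  apply Primrec.to_comp
  unfold chain
  have hadd : ∀ k : ℕ, Primrec (fun n : ℕ => N + n + k) := fun k =>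
    Primrec.nat_add.comp (Primrec.nat_add.comp (Primrec.const N) Primrec.id) (Primrec.const k)
  have hmap : Primrec (fun n : ℕ => (List.range (n + 1)).map
      (fun i => (Sum.inl (N + i + 2, N + i + 1, N + 1) : Cstr ℕ))) := by
    refine Primrec.list_map (Primrec.list_range.comp Primrec.succ) ?_
    have : Primrec (fun i : ℕ => (Sum.inl (N + i + 2, N + i + 1, N + 1) : Cstr ℕ)) :=
      Primrec.sumInl.comp ((hadd 2).pair ((hadd 1).pair (Primrec.const (N + 1))))
    exact (this.comp Primrec.snd).to₂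
  have h2 : Primrec (fun n : ℕ => (Sum.inl (N + n + 2, 0, N + 1) : Cstr ℕ)) :=
    Primrec.sumInl.comp ((hadd 2).pair ((Primrec.const 0).pair (Primrec.const (N + 1))))
  exact Primrec.list_append.comp (Primrec.const L)
    (Primrec.list_cons.comp (Primrec.const _) (Primrec.list_cons.comp h2 hmap))

/-- **Undecidability**: no algorithm decides whether a finite system of constraints
`x = y + z`, `x = y * 2 ^ z`, `x = 1` has a solution in positive integers. -/
theorem undecidable (Q : List (Cstr ℕ) → Prop)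
    (hQ : ∀ L : List (Cstr ℕ), (∀ c ∈ L, isEq c) →
      (Q L ↔ ∃ v : ℕ → ℕ, (∀ n, 0 < v n) ∧ ∀ c ∈ L, holds v c)) : ¬ ComputablePred Q := by
  intro h
  apply kk_not_computable
  obtain ⟨N, L, hL, H⟩ := kk_system
  refine ComputablePred.computable_of_manyOneReducible (q := Q)
    ⟨fun n => L ++ chain N n, chain_computable N L, fun n => ?_⟩ h
  rw [hQ _ (by
    intro c hc
    rw [List.mem_append] at hc
    rcases hc with hc | hc
    · exact hL c hc
    · exact chain_isEq N n c hc)]
  constructor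
  · intro hK
    obtain ⟨v, hv, h0, hch, hc⟩ := (H n).1.1 hK
    refine ⟨v, hv, ?_⟩
    intro c hc'
    rw [List.mem_append] at hc'
    rcases hc' with hc' | hc'
    · exact hc c hc'
    · exact chain_holds N n v h0 hch c hc'
  · rintro ⟨v, hv, hc⟩
    refine (H n).2 v hv (chain_spec N n v ?_) ?_
    · intro c hc'
      exact hc c (List.mem_append.2 (Or.inr hc'))
    · intro c hc'
      exact hc c (List.mem_append.2 (Or.inl hc'))

end Pool.Agent.Work.MP_4f56fb_lc
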